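import Mathlib

/-! # The isomorphism game algebra of two graphs: definitions and existence -/

set_option autoImplicit false

noncomputable section

namespace Q17.IsoGame

open scoped ENNReal

variable {V W : Type} [Fintype V] [Fintype W]

/-- The pair `g, g'` of vertices of `G` and the pair `h, h'` of vertices of `H` stand in the same
relation (both equal, or both adjacent, or both distinct and non-adjacent). -/
def SameRel (G : SimpleGraph V) (H : SimpleGraph W) (g g' : V) (h h' : W) : Prop :=
  (g = g' ↔ h = h') ∧ (G.Adj g g' ↔ H.Adj h h')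

/-- The defining relations of the isomorphism game algebra of `G` and `H`. -/
structure IsoGameRel (G : SimpleGraph V) (H : SimpleGraph W) {A : Type} [CStarAlgebra A]
    (p : V → W → A) : Prop where
  idem : ∀ g h, p g h * p g h = p g h
  sa : ∀ g h, star (p g h) = p g h
  row : ∀ g, ∑ h, p g h = 1
  col : ∀ h, ∑ g, p g h = 1
  orth : ∀ g g' h h', ¬ SameRel G H g g' h h' → p g h * p g' h' = 0

/-- `A`, with the elements `p`, is the isomorphism game algebra of `G` and `H`: the universal
unital C*-algebra generated by elements satisfying the relations `IsoGameRel`. -/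
structure IsIsoGameAlgebra (G : SimpleGraph V) (H : SimpleGraph W) (A : Type) [CStarAlgebra A]
    (p : V → W → A) : Prop where
  rel : IsoGameRel G H p
  univ : ∀ (B : Type) [CStarAlgebra B] (q : V → W → B), IsoGameRel G H q →
    ∃! φ : A →⋆ₐ[ℂ] B, ∀ g h, φ (p g h) = q g h

section exist

variable {G : SimpleGraph V} {H : SimpleGraph W}

/-- evaluation of noncommutative polynomials -/
def ext {B : Type} [CStarAlgebra B] (q : V → W → B) : FreeAlgebra ℂ (V × W) →ₐ[ℂ] B :=
  FreeAlgebra.lift ℂ (fun x => q x.1 x.2)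

omit [Fintype V] [Fintype W] in
lemma ext_ι {B : Type} [CStarAlgebra B] (q : V → W → B) (x : V × W) :
    ext q (FreeAlgebra.ι ℂ x) = q x.1 x.2 := by
  rw [ext, FreeAlgebra.lift_ι_apply]

lemma exists_adj (x : FreeAlgebra ℂ (V × W)) : ∃ y : FreeAlgebra ℂ (V × W),
    ∀ (B : Type) [CStarAlgebra B] (q : V → W → B), (∀ g h, star (q g h) = q g h) →
      star (ext q x) = ext q y := by
  induction x using FreeAlgebra.induction with
  | grade0 r =>
    refine ⟨algebraMap ℂ _ (star r), fun B _ q _ => ?_⟩
    rw [AlgHom.commutes, AlgHom.commutes, algebraMap_star_comm]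
  | grade1 x =>
    refine ⟨FreeAlgebra.ι ℂ x, fun B _ q hq => ?_⟩
    rw [ext_ι, hq]
  | mul x y hx hy =>
    obtain ⟨x', hx'⟩ := hx
    obtain ⟨y', hy'⟩ := hy
    refine ⟨y' * x', fun B _ q hq => ?_⟩
    rw [map_mul, map_mul, star_mul, hx' B q hq, hy' B q hq]
  | add x y hx hy =>
    obtain ⟨x', hx'⟩ := hx
    obtain ⟨y', hy'⟩ := hy
    refine ⟨x' + y', fun B _ q hq => ?_⟩
    rw [map_add, map_add, star_add, hx' B q hq, hy' B q hq]

lemma proj_norm_le {B : Type} [CStarAlgebra B] {e : B} (h1 : e * e = e) (h2 : star e = e) :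
    ‖e‖ ≤ 1 := by
  have h3 : ‖e‖ * ‖e‖ = ‖e‖ := by
    rw [← CStarRing.norm_star_mul_self, h2, h1]
  by_contra hlt
  push Not at hlt
  nlinarith [norm_nonneg e]

lemma ext_bdd (x : FreeAlgebra ℂ (V × W)) : ∃ C : ℝ, ∀ (B : Type) [CStarAlgebra B]
    [Nontrivial B] (q : V → W → B), IsoGameRel G H q → ‖ext q x‖ ≤ C := by
  induction x using FreeAlgebra.induction with
  | grade0 r =>
    refine ⟨‖r‖, fun B _ _ q _ => ?_⟩
    rw [AlgHom.commutes, norm_algebraMap']
  | grade1 x =>
    refine ⟨1, fun B _ _ q hq => ?_⟩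
    rw [ext_ι]
    exact proj_norm_le (hq.idem _ _) (hq.sa _ _)
  | mul x y hx hy =>
    obtain ⟨C, hC⟩ := hx
    obtain ⟨D, hD⟩ := hy
    refine ⟨C * D, fun B _ _ q hq => ?_⟩
    rw [map_mul]
    refine (norm_mul_le _ _).trans ?_
    exact mul_le_mul (hC B q hq) (hD B q hq) (norm_nonneg _) ((norm_nonneg _).trans (hC B q hq))
  | add x y hx hy =>
    obtain ⟨C, hC⟩ := hx
    obtain ⟨D, hD⟩ := hy
    refine ⟨C + D, fun B _ _ q hq => ?_⟩
    rw [map_add]
    exact (norm_add_le _ _).trans (add_le_add (hC B q hq) (hD B q hq))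

variable (G H) in
/-- a representation in a nonzero C*-algebra -/
structure RepD : Type 1 where
  B : Type
  inst : CStarAlgebra B
  nt : Nontrivial B
  q : V → W → B
  rel : IsoGameRel G H q

instance (r : RepD G H) : CStarAlgebra r.B := r.inst
instance (r : RepD G H) : Nontrivial r.B := r.nt

lemma exists_near (hne : Nonempty (RepD G H)) (x : FreeAlgebra ℂ (V × W)) (n : ℕ) :
    ∃ r : RepD G H, ∀ (B : Type) [CStarAlgebra B] (q : V → W → B), IsoGameRel G H q →
      ‖ext q x‖ ≤ ‖ext r.q x‖ + 1 / (n + 1) := by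
  obtain ⟨C, hC⟩ := ext_bdd (G := G) (H := H) x
  have hbdd : BddAbove (Set.range fun r : RepD G H => ‖ext r.q x‖) := by
    refine ⟨C, ?_⟩
    rintro _ ⟨r, rfl⟩
    exact hC r.B r.q r.rel
  have hpos : (0 : ℝ) < 1 / (n + 1) := by positivity
  obtain ⟨r, hr⟩ := exists_lt_of_lt_ciSup (f := fun r : RepD G H => ‖ext r.q x‖)
    (show (⨆ r : RepD G H, ‖ext r.q x‖) - 1 / (n + 1) < ⨆ r : RepD G H, ‖ext r.q x‖ by linarith)
  refine ⟨r, fun B _ q hq => ?_⟩
  rcases subsingleton_or_nontrivial B with h | h
  · rw [Subsingleton.elim (ext q x) 0, norm_zero]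
    have := norm_nonneg (ext r.q x)
    linarith
  · have h1 : ‖ext q x‖ ≤ ⨆ r : RepD G H, ‖ext r.q x‖ :=
      le_ciSup hbdd (⟨B, inferInstance, h, q, hq⟩ : RepD G H)
    linarith

section prod

variable (hne : Nonempty (RepD G H))

/-- an almost optimal representation -/
def nearR (i : FreeAlgebra ℂ (V × W) × ℕ) : RepD G H := (exists_near hne i.1 i.2).choose

lemma nearR_spec (i : FreeAlgebra ℂ (V × W) × ℕ) (B : Type) [CStarAlgebra B] (q : V → W → B)
    (hq : IsoGameRel G H q) : ‖ext q i.1‖ ≤ ‖ext (nearR hne i).q i.1‖ + 1 / (i.2 + 1) :=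
  (exists_near hne i.1 i.2).choose_spec B q hq

/-- the product of the C*-algebras -/
abbrev PP : Type := lp (fun i : FreeAlgebra ℂ (V × W) × ℕ => (nearR hne i).B) ∞

noncomputable instance : CStarAlgebra (PP hne) where

/-- the product representation -/
def qq (g : V) (h : W) : PP hne :=
  ⟨fun i => (nearR hne i).q g h, memℓp_infty ⟨1, by
      rintro _ ⟨i, rfl⟩
      exact proj_norm_le ((nearR hne i).rel.idem g h) ((nearR hne i).rel.sa g h)⟩⟩

lemma qq_apply (g : V) (h : W) (i) : (qq hne g h : PP hne) i = (nearR hne i).q g h := rfl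

lemma qq_rel : IsoGameRel G H (qq hne) where
  idem g h := by
    apply lp.ext
    funext i
    exact (nearR hne i).rel.idem g h
  sa g h := by
    apply lp.ext
    funext i
    exact (nearR hne i).rel.sa g h
  row g := by
    apply lp.ext
    funext i
    have := (nearR hne i).rel.row g
    rw [lp.coeFn_sum, Finset.sum_apply]
    exact this
  col h := by
    apply lp.ext
    funext i
    have := (nearR hne i).rel.col h
    rw [lp.coeFn_sum, Finset.sum_apply]
    exact this
  orth g g' h h' hr := by
    apply lp.ext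
    funext i
    exact (nearR hne i).rel.orth g g' h h' hr

lemma ext_qq (x : FreeAlgebra ℂ (V × W)) (i : FreeAlgebra ℂ (V × W) × ℕ) :
    (ext (qq hne) x : PP hne) i = ext (nearR hne i).q x := by
  induction x using FreeAlgebra.induction with
  | grade0 r =>
    rw [AlgHom.commutes, AlgHom.commutes, Algebra.algebraMap_eq_smul_one,
      Algebra.algebraMap_eq_smul_one]
    rfl
  | grade1 x => rw [ext_ι, ext_ι]; rfl
  | mul x y hx hy => rw [map_mul, map_mul, ← hx, ← hy]; rfl
  | add x y hx hy => rw [map_add, map_add, ← hx, ← hy]; rfl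

theorem norm_qq (B : Type) [CStarAlgebra B] (q : V → W → B) (hq : IsoGameRel G H q)
    (x : FreeAlgebra ℂ (V × W)) : ‖ext q x‖ ≤ ‖(ext (qq hne) x : PP hne)‖ := by
  refine le_of_forall_pos_le_add fun ε hε => ?_
  obtain ⟨n, hn⟩ := exists_nat_one_div_lt hε
  have h1 := nearR_spec hne (x, n) B q hq
  have h2 : ‖(ext (qq hne) x : PP hne) (x, n)‖ ≤ ‖(ext (qq hne) x : PP hne)‖ :=
    lp.norm_apply_le_norm (by simp) _ _
  rw [ext_qq] at h2
  simp only at h1
  linarith

/-- the *-algebra generated by the product representation -/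
def galg : StarSubalgebra ℂ (PP hne) where
  toSubalgebra := (ext (qq hne)).range
  star_mem' := by
    rintro _ ⟨x, rfl⟩
    obtain ⟨y, hy⟩ := exists_adj x
    exact ⟨y, (hy _ (qq hne) (fun g h => (qq_rel hne).sa g h)).symm⟩

/-- its closure -/
def GS : StarSubalgebra ℂ (PP hne) := (galg hne).topologicalClosure

instance : IsClosed (GS hne : Set (PP hne)) := StarSubalgebra.isClosed_topologicalClosure _

/-- the closure as a type -/
def GT : Type := GS hne

instance : CStarAlgebra (GT hne) := by
  exact (inferInstance : CStarAlgebra (GS hne))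

/-- the inclusion -/
def inclG : GT hne →⋆ₐ[ℂ] PP hne := (GS hne).subtype

lemma inclG_inj : Function.Injective (inclG hne) := Subtype.val_injective

lemma inclG_norm (x : GT hne) : ‖inclG hne x‖ = ‖x‖ := rfl

lemma qq_mem (g : V) (h : W) : qq hne g h ∈ GS hne := by
  apply StarSubalgebra.le_topologicalClosure
  refine ⟨FreeAlgebra.ι ℂ (g, h), ?_⟩
  change ext (qq hne) (FreeAlgebra.ι ℂ (g, h)) = _
  rw [ext_ι]

/-- the generators -/
def pG (g : V) (h : W) : GT hne := (⟨qq hne g h, qq_mem hne g h⟩ : GS hne)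

lemma incl_pG (g : V) (h : W) : inclG hne (pG hne g h) = qq hne g h := rfl

lemma pG_rel : IsoGameRel G H (pG hne) where
  idem g h := by
    apply inclG_inj hne
    rw [map_mul, incl_pG]
    exact (qq_rel hne).idem g h
  sa g h := by
    apply inclG_inj hne
    rw [map_star, incl_pG]
    exact (qq_rel hne).sa g h
  row g := by
    apply inclG_inj hne
    rw [map_sum, map_one]
    exact (qq_rel hne).row g
  col h := by
    apply inclG_inj hne
    rw [map_sum, map_one]
    exact (qq_rel hne).col h
  orth g g' h h' hr := by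
    apply inclG_inj hne
    rw [map_mul, map_zero]
    exact (qq_rel hne).orth g g' h h' hr

lemma incl_ext (x : FreeAlgebra ℂ (V × W)) : inclG hne (ext (pG hne) x) = ext (qq hne) x := by
  have h : ((inclG hne : GT hne →ₐ[ℂ] PP hne).comp (ext (pG hne))) = ext (qq hne) := by
    apply FreeAlgebra.hom_ext
    funext x
    change inclG hne (ext (pG hne) (FreeAlgebra.ι ℂ x)) = ext (qq hne) (FreeAlgebra.ι ℂ x)
    rw [ext_ι, ext_ι, incl_pG]
  exact DFunLike.congr_fun h x

lemma dense_pG : DenseRange (ext (pG hne)) := by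
  intro a
  rw [Metric.mem_closure_iff]
  intro δ hδ
  have ha : (inclG hne a) ∈ closure ((galg hne : StarSubalgebra ℂ (PP hne)) : Set (PP hne)) := by
    rw [← StarSubalgebra.topologicalClosure_coe]
    exact a.2
  obtain ⟨_, ⟨x, rfl⟩, hx⟩ := Metric.mem_closure_iff.mp ha δ hδ
  refine ⟨_, ⟨x, rfl⟩, ?_⟩
  rw [dist_eq_norm, ← inclG_norm, map_sub, incl_ext, ← dist_eq_norm]
  exact hx

/-- The closure is the isomorphism game algebra. -/
theorem isIsoGameAlgebra_GT : IsIsoGameAlgebra G H (GT hne) (pG hne) where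
  rel := pG_rel hne
  univ := by
    intro B _ q hq
    have hn : ∀ x : FreeAlgebra ℂ (V × W), ‖(ext q).toLinearMap x‖ ≤
        1 * ‖(ext (pG hne)).toLinearMap x‖ := by
      intro x
      rw [one_mul]
      have := norm_qq hne B q hq x
      rw [← incl_ext hne, inclG_norm] at this
      exact this
    let φ : GT hne →L[ℂ] B :=
      (ext q).toLinearMap.extendOfNorm (ext (pG hne)).toLinearMap
    have hφ : ∀ x, φ (ext (pG hne) x) = ext q x := by
      intro x
      exact LinearMap.extendOfNorm_eq (f := (ext q).toLinearMap)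
        (e := (ext (pG hne)).toLinearMap) (dense_pG hne) ⟨1, hn⟩ x
    have hmul : ∀ a b, φ (a * b) = φ a * φ b := by
      intro a b
      refine DenseRange.induction_on₂ (p := fun a b => φ (a * b) = φ a * φ b) (dense_pG hne)
        ?_ ?_ a b
      · exact isClosed_eq (by fun_prop) (by fun_prop)
      · intro x y
        rw [← map_mul, hφ, hφ, hφ, map_mul]
    have hstar : ∀ a, φ (star a) = star (φ a) := by
      intro a
      refine DenseRange.induction_on (p := fun a => φ (star a) = star (φ a)) (dense_pG hne) a ?_ ?_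
      · exact isClosed_eq (by fun_prop) (by fun_prop)
      · intro x
        obtain ⟨y, hy⟩ := exists_adj x
        rw [hy _ (pG hne) (fun g h => (pG_rel hne).sa g h), hφ, hφ, hy _ q hq.sa]
    have hone : φ 1 = 1 := by
      have h1 := hφ 1
      rw [map_one (ext (pG hne)), map_one (ext q)] at h1
      exact h1
    have hcom : ∀ r : ℂ, φ (algebraMap ℂ (GT hne) r) = algebraMap ℂ B r := by
      intro r
      rw [Algebra.algebraMap_eq_smul_one, Algebra.algebraMap_eq_smul_one, map_smul, hone]
    refine ⟨{ toFun := φ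
              map_one' := hone
              map_mul' := hmul
              map_zero' := map_zero φ
              map_add' := map_add φ
              commutes' := hcom
              map_star' := hstar }, ?_, ?_⟩
    · intro g h
      have := hφ (FreeAlgebra.ι ℂ (g, h))
      rw [ext_ι, ext_ι] at this
      exact this
    · intro ψ hψ
      -- uniqueness
      have hcont : Continuous ψ := by
        have := NonUnitalStarAlgHom.instContinuousLinearMapClassComplex
          (F := GT hne →⋆ₐ[ℂ] B) (A := GT hne) (B := B)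
        exact map_continuous ψ
      apply DFunLike.coe_injective
      refine (dense_pG hne).equalizer hcont φ.continuous ?_
      funext x
      change ψ (ext (pG hne) x) = φ (ext (pG hne) x)
      rw [hφ]
      have h : ((ψ : GT hne →ₐ[ℂ] B).comp (ext (pG hne))) = ext q := by
        apply FreeAlgebra.hom_ext
        funext x
        change ψ (ext (pG hne) (FreeAlgebra.ι ℂ x)) = ext q (FreeAlgebra.ι ℂ x)
        rw [ext_ι, ext_ι, hψ]
      exact DFunLike.congr_fun h x

end prod

/-- If the relations have a solution in a nonzero C*-algebra, then the isomorphism game algebra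
exists. -/
theorem exists_isIsoGameAlgebra (B : Type) [CStarAlgebra B] [hB : Nontrivial B] (q : V → W → B)
    (hq : IsoGameRel G H q) :
    ∃ (A : Type) (_ : CStarAlgebra A) (p : V → W → A), IsIsoGameAlgebra G H A p :=
  ⟨_, _, _, isIsoGameAlgebra_GT ⟨⟨B, inferInstance, hB, q, hq⟩⟩⟩

end exist

end Q17.IsoGame
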