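import Pool.Agent.Q17.IsoGame.Square
import Pool.Agent.Q17.IsoGame.Grp

/-! # Solution groups, and the non-embedding theorem -/

set_option autoImplicit false

noncomputable section

namespace Q17.IsoGame

open Q17.IsoGame.Grp

/-- The generator `g_i` in the free group on `g_1, …, g_n, J`. -/
def gen {n : ℕ} (i : Fin n) : FreeGroup (Option (Fin n)) := FreeGroup.of (some i)

/-- The generator `J`. -/
def genJ {n : ℕ} : FreeGroup (Option (Fin n)) := FreeGroup.of none

/-- The relators of the solution group of the binary linear system `M x = b`. -/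
inductive SolRel {m n : ℕ} (M : Matrix (Fin m) (Fin n) (ZMod 2)) (b : Fin m → ZMod 2) :
    FreeGroup (Option (Fin n)) → Prop
  | J_sq : SolRel M b (genJ ^ 2)
  | sq (i : Fin n) : SolRel M b (gen i ^ 2)
  | J_comm (i : Fin n) : SolRel M b (genJ * gen i * genJ⁻¹ * (gen i)⁻¹)
  | comm (k : Fin m) (i j : Fin n) (hi : M k i = 1) (hj : M k j = 1) :
      SolRel M b (gen i * gen j * (gen i)⁻¹ * (gen j)⁻¹)
  | eqn (k : Fin m) :
      SolRel M b ((List.ofFn fun i : Fin n => gen i ^ (M k i).val).prod * (genJ ^ (b k).val)⁻¹)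

/-- The solution group `Γ(M, b)` of the binary linear system `M x = b`. -/
abbrev SolutionGroup {m n : ℕ} (M : Matrix (Fin m) (Fin n) (ZMod 2)) (b : Fin m → ZMod 2) : Type :=
  PresentedGroup {r | SolRel M b r}

/-- The full group C*-algebra of a group has a character. -/
lemma exists_char {Γ : Type} [Group Γ] {C : Type} [CStarAlgebra C] {u : Γ →* unitary C}
    (hC : IsFullGroupCStar Γ C u) : ∃ _ : C →⋆ₐ[ℂ] ℂ, True := by
  obtain ⟨χ, -⟩ := hC.univ ℂ 1
  exact ⟨χ, trivial⟩

theorem no_hom {A : Type} [CStarAlgebra A] {p : Vert → Vert → A}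
    (hp : IsoGameRel (sqGraph bMS) (sqGraph (fun _ => false)) p)
    {Γ : Type} [Group Γ] {C : Type} [CStarAlgebra C] {u : Γ →* unitary C}
    (hC : IsFullGroupCStar Γ C u) : IsEmpty (A →⋆ₐ[ℂ] C) := by
  refine ⟨fun φ => ?_⟩
  obtain ⟨χ, -⟩ := exists_char hC
  exact no_character hp (χ.comp φ)

theorem main :
    ∃ (V W : Type) (_ : Fintype V) (_ : Fintype W) (G : SimpleGraph V) (H : SimpleGraph W),
      (∃ (A : Type) (_ : CStarAlgebra A) (p : V → W → A), IsIsoGameAlgebra G H A p) ∧
      ∀ (A : Type) [CStarAlgebra A] (p : V → W → A), IsIsoGameAlgebra G H A p →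
        Nontrivial A ∧
        (∀ (m n : ℕ) (M : Matrix (Fin m) (Fin n) (ZMod 2)) (b : Fin m → ZMod 2),
          (∃ (C : Type) (_ : CStarAlgebra C) (u : SolutionGroup M b →* unitary C),
            IsFullGroupCStar (SolutionGroup M b) C u) ∧
          ∀ (C : Type) [CStarAlgebra C] (u : SolutionGroup M b →* unitary C),
            IsFullGroupCStar (SolutionGroup M b) C u →
            ¬ ∃ φ : A →⋆ₐ[ℂ] C, Function.Injective φ) ∧
        (∀ (Γ : Type) [Group Γ] (C : Type) [CStarAlgebra C] (u : Γ →* unitary C),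
            IsFullGroupCStar Γ C u → IsEmpty (A →⋆ₐ[ℂ] C)) := by
  refine ⟨Vert, Vert, inferInstance, inferInstance, sqGraph bMS, sqGraph (fun _ => false),
    exists_MS, ?_⟩
  intro A _ p hA
  refine ⟨nontrivial_MS hA, ?_, ?_⟩
  · intro m n M b
    refine ⟨exists_fullGroup _, ?_⟩
    rintro C _ u hC ⟨φ, -⟩
    exact (no_hom hA.rel hC).false φ
  · intro Γ _ C _ u hC
    exact no_hom hA.rel hC

end Q17.IsoGame
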