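import Pool.Agent.Q17.IsoGame.Defs

/-! # The graphs of the magic square and a representation of their isomorphism game -/

set_option autoImplicit false

noncomputable section

namespace Q17.IsoGame

/-- The six lines of a `3 × 3` square: `(false, i)` is row `i` and `(true, j)` is column `j`. -/
abbrev Line := Bool × Fin 3

/-- A vertex is a line together with the first two values of an assignment to its cells. -/
abbrev Vert := Line × (Bool × Bool)

/-- The assignment of a vertex: the third value is given by the parity `b` of the line. -/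
def asg (b : Line → Bool) (v : Vert) : Fin 3 → Bool :=
  ![v.2.1, v.2.2, xor (xor v.2.1 v.2.2) (b v.1)]

/-- The graph of the square with parities `b`: two vertices are adjacent if their assignments are
inconsistent. -/
def sqGraph (b : Line → Bool) : SimpleGraph Vert where
  Adj u v := (u.1 = v.1 ∧ u.2 ≠ v.2) ∨ (u.1.1 ≠ v.1.1 ∧ asg b u v.1.2 ≠ asg b v u.1.2)
  symm := ⟨by
    rintro u v (⟨h1, h2⟩ | ⟨h1, h2⟩)
    · exact Or.inl ⟨h1.symm, h2.symm⟩
    · exact Or.inr ⟨h1.symm, h2.symm⟩⟩
  loopless := ⟨by
    rintro u (⟨_, h2⟩ | ⟨h1, _⟩)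
    · exact h2 rfl
    · exact h1 rfl⟩

/-- the sign of a Boolean -/
def sg (a : Bool) : ℂ := if a then -1 else 1

@[simp] lemma sg_false : sg false = 1 := rfl
@[simp] lemma sg_true : sg true = -1 := rfl

/-- An operator solution of the square with parities `b`. -/
structure OpSol (b : Line → Bool) {B : Type} [CStarAlgebra B] (L : Line → Fin 3 → B) : Prop where
  sa : ∀ k j, star (L k j) = L k j
  sq : ∀ k j, L k j * L k j = 1
  m01 : ∀ k, L k 0 * L k 1 = sg (b k) • L k 2
  m10 : ∀ k, L k 1 * L k 0 = sg (b k) • L k 2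
  m02 : ∀ k, L k 0 * L k 2 = sg (b k) • L k 1
  m20 : ∀ k, L k 2 * L k 0 = sg (b k) • L k 1
  m12 : ∀ k, L k 1 * L k 2 = sg (b k) • L k 0
  m21 : ∀ k, L k 2 * L k 1 = sg (b k) • L k 0
  cell : ∀ k l : Line, k.1 ≠ l.1 → L k l.2 = L l k.2

section

variable {b : Line → Bool} {B : Type} [CStarAlgebra B] {L : Line → Fin 3 → B}

/-- the joint spectral projection of a line -/
def E (b : Line → Bool) (L : Line → Fin 3 → B) (v : Vert) : B :=
  (1 / 4 : ℂ) • (1 + sg (asg b v 0) • L v.1 0 + sg (asg b v 1) • L v.1 1 +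
    sg (asg b v 2) • L v.1 2)

lemma E_star (hL : OpSol b L) (v : Vert) : star (E b L v) = E b L v := by
  have h : ∀ a : Bool, star (sg a) = sg a := by
    intro a; cases a <;> simp [sg]
  simp only [E, star_smul, star_add, star_one, hL.sa, h]
  congr 1
  norm_num

lemma E_mul (hL : OpSol b L) (v : Vert) (j : Fin 3) :
    E b L v * L v.1 j = sg (asg b v j) • E b L v := by
  obtain ⟨k, a, c⟩ := v
  have h01 := hL.m01 k
  have h10 := hL.m10 k
  have h02 := hL.m02 k
  have h20 := hL.m20 k
  have h12 := hL.m12 k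
  have h21 := hL.m21 k
  have h0 := hL.sq k 0
  have h1 := hL.sq k 1
  have h2 := hL.sq k 2
  fin_cases j <;> cases a <;> cases c <;> rcases hb : b k <;>
  · simp only [hb] at h01 h10 h02 h20 h12 h21
    simp [E, asg, add_mul, h01, h10, h02, h20, h12, h21, h0, h1, h2, hb]
    try module

lemma mul_E (hL : OpSol b L) (v : Vert) (j : Fin 3) :
    L v.1 j * E b L v = sg (asg b v j) • E b L v := by
  have h : ∀ a : Bool, star (sg a) = sg a := by
    intro a; cases a <;> simp [sg]
  have := congrArg star (E_mul hL v j)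
  rw [star_mul, star_smul, E_star hL, hL.sa, h] at this
  exact this

lemma E_mul_E (hL : OpSol b L) (v : Vert) : E b L v * E b L v = E b L v := by
  have h : ∀ a : Bool, sg a * sg a = 1 := by
    intro a; cases a <;> simp [sg]
  nth_rewrite 2 [E]
  rw [mul_smul_comm, mul_add, mul_add, mul_add, mul_one, mul_smul_comm, mul_smul_comm,
    mul_smul_comm, E_mul hL, E_mul hL, E_mul hL, smul_smul, smul_smul, smul_smul, h, h, h, one_smul]
  module

/-- inconsistent projections are orthogonal -/
lemma E_orth (hL : OpSol b L) (v w : Vert) (j j' : Fin 3) (hc : L v.1 j = L w.1 j')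
    (h : asg b v j ≠ asg b w j') : E b L v * E b L w = 0 := by
  have h1 : sg (asg b v j) • (E b L v * E b L w) = sg (asg b w j') • (E b L v * E b L w) := by
    rw [← smul_mul_assoc, ← E_mul hL v j, hc, mul_assoc, mul_E hL w j', mul_smul_comm]
  have h2 : sg (asg b v j) = - sg (asg b w j') := by
    revert h
    cases asg b v j <;> cases asg b w j' <;> simp [sg]
  have h3 : sg (asg b w j') ≠ 0 := by
    cases asg b w j' <;> simp [sg]
  rw [h2, neg_smul] at h1
  have h4 : (2 * sg (asg b w j')) • (E b L v * E b L w) = 0 := by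
    rw [two_mul, add_smul]
    nth_rewrite 1 [← h1]
    exact neg_add_cancel _
  rcases smul_eq_zero.1 h4 with h5 | h5
  · exact absurd h5 (mul_ne_zero two_ne_zero h3)
  · exact h5

/-- addition of two pairs of Booleans -/
def padd (x y : Bool × Bool) : Bool × Bool := (xor x.1 y.1, xor x.2 y.2)

/-- the solution of the isomorphism game given by an operator solution -/
def pp (b : Line → Bool) (L : Line → Fin 3 → B) (u v : Vert) : B :=
  if u.1 = v.1 then E b L (u.1, padd u.2 v.2) else 0

lemma asg_padd (k : Line) (x y : Bool × Bool) (j : Fin 3) :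
    asg b (k, padd x y) j = xor (asg b (k, x) j) (asg (fun _ => false) (k, y) j) := by
  obtain ⟨x0, x1⟩ := x
  obtain ⟨y0, y1⟩ := y
  fin_cases j
  · rfl
  · rfl
  · simp only [asg, padd, Fin.reduceFinMk, Matrix.cons_val]
    cases x0 <;> cases x1 <;> cases y0 <;> cases y1 <;> cases b k <;> rfl

lemma sum_E_left (k : Line) (x : Bool × Bool) : ∑ y : Bool × Bool, E b L (k, padd x y) = 1 := by
  obtain ⟨x0, x1⟩ := x
  rw [Fintype.sum_prod_type]
  simp only [Fintype.sum_bool]
  cases x0 <;> cases x1 <;> rcases hb : b k <;>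
  · simp [E, asg, padd, hb]
    module

lemma padd_comm (x y : Bool × Bool) : padd x y = padd y x := by
  simp [padd, Bool.xor_comm]

lemma padd_iff : ∀ x x' y y' : Bool × Bool, padd x y = padd x' y' → (x = x' ↔ y = y') := by
  decide

lemma pp_rel (hL : OpSol b L) : IsoGameRel (sqGraph b) (sqGraph (fun _ => false)) (pp b L) where
  idem u v := by
    unfold pp
    split_ifs with h
    · exact E_mul_E hL _
    · exact mul_zero _
  sa u v := by
    unfold pp
    split_ifs with h
    · exact E_star hL _
    · exact star_zero _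
  row u := by
    rw [Fintype.sum_prod_type]
    have : ∀ l : Line, l ∈ Finset.univ → l ≠ u.1 → ∑ y : Bool × Bool, pp b L u (l, y) = 0 := by
      intro l _ hl
      refine Finset.sum_eq_zero fun y _ => ?_
      exact if_neg (fun h => hl h.symm)
    rw [Finset.sum_eq_single u.1 this (by simp)]
    have h2 : ∀ y : Bool × Bool, pp b L u (u.1, y) = E b L (u.1, padd u.2 y) := fun y => if_pos rfl
    simp only [h2]
    exact sum_E_left _ _
  col v := by
    rw [Fintype.sum_prod_type]
    have : ∀ l : Line, l ∈ Finset.univ → l ≠ v.1 → ∑ y : Bool × Bool, pp b L (l, y) v = 0 := by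
      intro l _ hl
      refine Finset.sum_eq_zero fun y _ => ?_
      exact if_neg hl
    rw [Finset.sum_eq_single v.1 this (by simp)]
    have h2 : ∀ y : Bool × Bool, pp b L (v.1, y) v = E b L (v.1, padd v.2 y) := by
      intro y
      rw [padd_comm]
      exact if_pos rfl
    simp only [h2]
    exact sum_E_left _ _
  orth g g' h h' hr := by
    by_contra hne
    apply hr
    have h1 : g.1 = h.1 := by
      by_contra h0
      apply hne
      have : pp b L g h = 0 := if_neg h0
      rw [this, zero_mul]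
    have h2 : g'.1 = h'.1 := by
      by_contra h0
      apply hne
      have : pp b L g' h' = 0 := if_neg h0
      rw [this, mul_zero]
    have e1 : pp b L g h = E b L (g.1, padd g.2 h.2) := if_pos h1
    have e2 : pp b L g' h' = E b L (g'.1, padd g'.2 h'.2) := if_pos h2
    rw [e1, e2] at hne
    have horth : ∀ j j' : Fin 3, L g.1 j = L g'.1 j' →
        asg b (g.1, padd g.2 h.2) j = asg b (g'.1, padd g'.2 h'.2) j' := by
      intro j j' hj
      by_contra hc
      exact hne (E_orth hL (g.1, padd g.2 h.2) (g'.1, padd g'.2 h'.2) j j' hj hc)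
    obtain ⟨k, x⟩ := g
    obtain ⟨k', x'⟩ := g'
    obtain ⟨l, y⟩ := h
    obtain ⟨l', y'⟩ := h'
    simp only at h1 h2
    subst h1 h2
    simp only at horth
    by_cases hk : k = k'
    · subst hk
      have h3 : padd x y = padd x' y' := by
        have a0 := horth 0 0 rfl
        have a1 := horth 1 1 rfl
        exact Prod.ext a0 a1
      have h4 : x = x' ↔ y = y' := padd_iff x x' y y' h3
      refine ⟨?_, ?_⟩
      · simp [h4]
      · simp [sqGraph, h4]
    · by_cases ht : k.1 = k'.1
      · refine ⟨?_, ?_⟩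
        · simp [hk]
        · simp [sqGraph, hk, ht]
      · refine ⟨?_, ?_⟩
        · simp [hk]
        · have h5 := horth k'.2 k.2 (hL.cell k k' ht)
          rw [asg_padd, asg_padd] at h5
          simp only [sqGraph, hk, ht, false_and, false_or, ne_eq, not_false_eq_true, true_and]
          revert h5
          cases asg b (k, x) k'.2 <;> cases asg b (k', x') k.2 <;>
            cases asg (fun _ => false) (k, y) k'.2 <;>
            cases asg (fun _ => false) (k', y') k.2 <;> simp

end

/-! ### No characters -/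

/-- the parities of the magic square: odd on the last column only -/
def bMS (k : Line) : Bool := decide (k = (true, 2))

lemma no_solution (v : Line → Bool × Bool)
    (h : ∀ i j : Fin 3, asg bMS ((false, i), v (false, i)) j = asg bMS ((true, j), v (true, j)) i) :
    False := by
  have h00 := h 0 0
  have h01 := h 0 1
  have h02 := h 0 2
  have h10 := h 1 0
  have h11 := h 1 1
  have h12 := h 1 2
  have h20 := h 2 0
  have h21 := h 2 1
  have h22 := h 2 2
  simp [asg, bMS] at h00 h01 h02 h10 h11 h12 h20 h21 h22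
  generalize v (false, 0) = a0 at *
  generalize v (false, 1) = a1 at *
  generalize v (false, 2) = a2 at *
  generalize v (true, 0) = c0 at *
  generalize v (true, 1) = c1 at *
  generalize v (true, 2) = c2 at *
  obtain ⟨a00, a01⟩ := a0
  obtain ⟨a10, a11⟩ := a1
  obtain ⟨a20, a21⟩ := a2
  obtain ⟨c00, c01⟩ := c0
  obtain ⟨c10, c11⟩ := c1
  obtain ⟨c20, c21⟩ := c2
  simp only at h00 h01 h02 h10 h11 h12 h20 h21 h22
  subst h00 h10 h01 h11 h02 h20 h12 h21
  revert h22
  cases a00 <;> cases a01 <;> cases a10 <;> cases a11 <;> simp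

/-- A solution of the isomorphism game relations has no character. -/
lemma no_character {A : Type} [CStarAlgebra A] {p : Vert → Vert → A}
    (hp : IsoGameRel (sqGraph bMS) (sqGraph (fun _ => false)) p) (χ : A →⋆ₐ[ℂ] ℂ) : False := by
  classical
  -- for every line `k` a vertex of the first graph
  have h1 : ∀ k : Line, ∃ g : Vert, χ (p g (k, (false, false))) ≠ 0 := by
    intro k
    by_contra hcon
    push Not at hcon
    have := congrArg χ (hp.col (k, (false, false)))
    rw [map_sum, map_one, Finset.sum_eq_zero (fun g _ => hcon g)] at this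
    exact zero_ne_one this
  choose g hg using h1
  have h2 : ∀ k l : Line, SameRel (sqGraph bMS) (sqGraph (fun _ => false)) (g k) (g l)
      (k, (false, false)) (l, (false, false)) := by
    intro k l
    by_contra hcon
    have := congrArg χ (hp.orth _ _ _ _ hcon)
    rw [map_mul, map_zero] at this
    exact mul_ne_zero (hg k) (hg l) this
  have hz : ∀ k : Line, asg (fun _ => false) (k, (false, false)) = fun _ => false := by
    intro k
    funext j
    fin_cases j <;> rfl
  have h3 : ∀ k l : Line, ¬ (sqGraph bMS).Adj (g k) (g l) := by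
    intro k l hadj
    have := (h2 k l).2.1 hadj
    rcases this with ⟨_, h⟩ | ⟨_, h⟩
    · exact h rfl
    · rw [hz, hz] at h
      exact h rfl
  have h4 : Function.Injective (fun k => (g k).1) := by
    intro k l hkl
    simp only at hkl
    have h5 : g k = g l := by
      by_contra hne
      refine h3 k l (Or.inl ⟨hkl, fun h => hne (Prod.ext hkl h)⟩)
    have h6 := (h2 k l).1.1 h5
    exact congrArg Prod.fst h6
  have h5 : Function.Surjective (fun k => (g k).1) := Finite.surjective_of_injective h4
  choose f hf using h5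
  simp only at hf
  -- the vertex on the line `l`
  apply no_solution (fun l => (g (f l)).2)
  intro i j
  have e1 : ((false, i), (g (f (false, i))).2) = g (f (false, i)) :=
    Prod.ext (hf (false, i)).symm rfl
  have e2 : ((true, j), (g (f (true, j))).2) = g (f (true, j)) :=
    Prod.ext (hf (true, j)).symm rfl
  rw [e1, e2]
  by_contra hne
  apply h3 (f (false, i)) (f (true, j))
  right
  rw [hf, hf]
  exact ⟨by simp, hne⟩

/-! ### The Pauli solution of the magic square -/

/-- the nine matrices, integer version -/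
def PZ : Fin 3 → Fin 3 → Matrix (Fin 4) (Fin 4) ℤ :=
  ![![ !![0,0,1,0; 0,0,0,1; 1,0,0,0; 0,1,0,0],   -- X ⊗ I
       !![0,1,0,0; 1,0,0,0; 0,0,0,1; 0,0,1,0],   -- I ⊗ X
       !![0,0,0,1; 0,0,1,0; 0,1,0,0; 1,0,0,0]],  -- X ⊗ X
    ![ !![1,0,0,0; 0,-1,0,0; 0,0,1,0; 0,0,0,-1], -- I ⊗ Z
       !![1,0,0,0; 0,1,0,0; 0,0,-1,0; 0,0,0,-1], -- Z ⊗ I
       !![1,0,0,0; 0,-1,0,0; 0,0,-1,0; 0,0,0,1]], -- Z ⊗ Z
    ![ !![0,0,1,0; 0,0,0,-1; 1,0,0,0; 0,-1,0,0], -- X ⊗ Z
       !![0,1,0,0; 1,0,0,0; 0,0,0,-1; 0,0,-1,0], -- Z ⊗ X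
       !![0,0,0,-1; 0,0,1,0; 0,1,0,0; -1,0,0,0]]] -- Y ⊗ Y

/-- the matrix on a cell of a line -/
def LZ (k : Line) (j : Fin 3) : Matrix (Fin 4) (Fin 4) ℤ := if k.1 then PZ j k.2 else PZ k.2 j

/-- the integer sign -/
def sz (a : Bool) : ℤ := if a then -1 else 1

lemma LZ_symm : ∀ k j, (LZ k j).transpose = LZ k j := by decide
lemma LZ_sq : ∀ k j, LZ k j * LZ k j = 1 := by decide
lemma LZ_01 : ∀ k, LZ k 0 * LZ k 1 = sz (bMS k) • LZ k 2 := by decide
lemma LZ_10 : ∀ k, LZ k 1 * LZ k 0 = sz (bMS k) • LZ k 2 := by decide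
lemma LZ_02 : ∀ k, LZ k 0 * LZ k 2 = sz (bMS k) • LZ k 1 := by decide
lemma LZ_20 : ∀ k, LZ k 2 * LZ k 0 = sz (bMS k) • LZ k 1 := by decide
lemma LZ_12 : ∀ k, LZ k 1 * LZ k 2 = sz (bMS k) • LZ k 0 := by decide
lemma LZ_21 : ∀ k, LZ k 2 * LZ k 1 = sz (bMS k) • LZ k 0 := by decide
lemma LZ_cell : ∀ k l : Line, k.1 ≠ l.1 → LZ k l.2 = LZ l k.2 := by decide

/-- the integer matrices as elements of the C*-algebra of `4 × 4` complex matrices -/
def toB : Matrix (Fin 4) (Fin 4) ℤ →+* CStarMatrix (Fin 4) (Fin 4) ℂ :=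
  (CStarMatrix.ofMatrixRingEquiv : Matrix (Fin 4) (Fin 4) ℂ ≃+* _).toRingHom.comp
    (Int.castRingHom ℂ).mapMatrix

lemma toB_apply (M : Matrix (Fin 4) (Fin 4) ℤ) (i j : Fin 4) : toB M i j = (M i j : ℂ) := rfl

lemma toB_star (M : Matrix (Fin 4) (Fin 4) ℤ) : star (toB M) = toB M.transpose := by
  apply CStarMatrix.ext
  intro i j
  rw [CStarMatrix.star_apply, toB_apply, toB_apply, Matrix.transpose_apply]
  simp

lemma toB_smul (a : Bool) (M : Matrix (Fin 4) (Fin 4) ℤ) : toB (sz a • M) = sg a • toB M := by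
  apply CStarMatrix.ext
  intro i j
  rw [toB_apply, CStarMatrix.smul_apply, toB_apply]
  cases a <;> simp [sz, sg]

open scoped ComplexOrder in
lemma opSol : OpSol bMS (fun k j => toB (LZ k j)) where
  sa k j := by rw [toB_star, LZ_symm]
  sq k j := by rw [← map_mul, LZ_sq, map_one]
  m01 k := by rw [← map_mul, LZ_01, toB_smul]
  m10 k := by rw [← map_mul, LZ_10, toB_smul]
  m02 k := by rw [← map_mul, LZ_02, toB_smul]
  m20 k := by rw [← map_mul, LZ_20, toB_smul]
  m12 k := by rw [← map_mul, LZ_12, toB_smul]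
  m21 k := by rw [← map_mul, LZ_21, toB_smul]
  cell k l h := by rw [LZ_cell k l h]

open scoped ComplexOrder in
/-- The isomorphism game algebra of the two graphs of the magic square exists. -/
theorem exists_MS : ∃ (A : Type) (_ : CStarAlgebra A) (p : Vert → Vert → A),
    IsIsoGameAlgebra (sqGraph bMS) (sqGraph (fun _ => false)) A p :=
  exists_isIsoGameAlgebra (CStarMatrix (Fin 4) (Fin 4) ℂ) _ (pp_rel opSol)

open scoped ComplexOrder in
/-- The isomorphism game algebra of the two graphs of the magic square is not zero. -/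
theorem nontrivial_MS {A : Type} [CStarAlgebra A] {p : Vert → Vert → A}
    (hA : IsIsoGameAlgebra (sqGraph bMS) (sqGraph (fun _ => false)) A p) : Nontrivial A := by
  obtain ⟨φ, -, -⟩ := hA.univ (CStarMatrix (Fin 4) (Fin 4) ℂ) _ (pp_rel opSol)
  refine ⟨⟨0, 1, fun h => ?_⟩⟩
  have := congrArg φ h
  rw [map_zero, map_one] at this
  exact zero_ne_one this

end Q17.IsoGame
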